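import Pool.Agent.Mg.Fa2558b.G876532

open Pool.Agent.MP_c6cf52_lc Pool.Agent.MP_a2558b_lc

universe u

theorem Pool.Agent.Results.MP_a2558b_lc.TotalFailure.result
    (h : ¬ {κ : Cardinal.{u} | Supercompact κ}.Countable) :
    ∃ (M : Type (u + 1)) (E : M → M → Prop), WellFounded E ∧ IsZFC E ∧
      ∃ w l t k, IsOmega E w ∧ IsCard E l ∧ IsCof E l t ∧ E w t ∧ E t l ∧ IsSucc E l k ∧
        ∀ m, IsCard E m → IsCof E m m → E t m → E m l →
          ∃ S, (∀ d, E d S → IsCof E d m) ∧ IsStat E S k ∧ ¬ InI E k S :=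
  main h
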